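import Pool.Agent.Helper18.EW.Goals4
import Pool.Agent.Lead.ShMain

/-!
# EW-FinB: the main case of the full theorem
-/

set_option autoImplicit false

namespace Pool.Agent.Helper35.EW

open Finset
open Pool.Agent.Lead.Sh
open Pool.Agent.Helper18.EW

theorem triZ_full {d h : ℕ} (hh : h = d + 1) : triZ d h = triD 0 d := by
  subst hh
  unfold triZ
  apply filter_true_of_mem
  intro x hx
  rw [mem_triD] at hx
  omega

theorem Ok_ind {D : Finset (ℕ × ℕ)} {n m : ℕ} (h : Ok D n m)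
    (hlt : n * (m + 1).choose 2 < D.card) : Ind D (rows (fun _ => m) (range n)) := by
  rcases h with h | h
  · exact h.2
  · exact absurd h.1 (not_le.2 hlt)

theorem Ok_inj {D : Finset (ℕ × ℕ)} {n m : ℕ} (h : Ok D n m)
    (hlt : D.card < n * (m + 1).choose 2) : Inj D (rows (fun _ => m) (range n)) := by
  rcases h with h | h
  · exact absurd h.1 (not_le.2 hlt)
  · exact h.2

theorem two_ch (m : ℕ) : 2 * (m + 1).choose 2 = m * (m + 1) := by
  rw [Nat.choose_two_right, Nat.add_sub_cancel, Nat.mul_comm (m + 1) m]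
  exact Nat.mul_div_cancel' (Nat.even_mul_succ_self m).two_dvd

theorem card_rows_range (m n : ℕ) :
    (rows (fun _ => m) (range n)).card = n * (m + 1).choose 2 := by
  rw [card_rows]; simp

/-- from the window theorem, in terms of twice the difference -/
theorem useWZ (hW : WZc) (n m d h Lg s : ℕ) (X : ℤ) (h1 : 1 ≤ Lg) (h2 : 2 ^ 85 * Lg ^ 3 ≤ n)
    (h3 : n ≤ 2 ^ Lg) (h4 : m ≤ 2 ^ Lg) (h5 : n ≤ 433 * m) (h6 : 1 ≤ h) (h7 : h ≤ d + 1)
    (h8 : 200 * (d + 1 - h) ≤ h)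
    (hX : 2 * (((triZ d h).card : ℤ) - n * (m + 1).choose 2) = X)
    (hlo : (s : ℤ) ≤ 4 * |X|) (hhi : |X| ≤ 6 * (m : ℤ) ^ 2)
    (hs : 8 * (2 ^ 65 * Lg ^ 2 * (2 ^ 75 * Lg ^ 3 + 2 * Nat.sqrt n)) ≤ s) :
    Ok (triZ d h) n m := by
  set W : ℕ := (((triZ d h).card : ℤ) - n * (m + 1).choose 2).natAbs with hWW
  have habs : |((triZ d h).card : ℤ) - n * (m + 1).choose 2| = W := by
    rw [hWW, Int.natCast_natAbs]
  have hX2 : |X| = 2 * W := by
    rw [← hX, abs_mul, habs]; norm_num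
  rw [hX2] at hlo hhi
  apply hW n m d h Lg W h1 h2 h3 h4 h5 _ h6 h7 h8 habs
  · have : (s : ℤ) ≤ 8 * W := by linarith
    have h9 : s ≤ 8 * W := by exact_mod_cast this
    omega
  · have : (W : ℤ) ≤ 3 * (m : ℤ) ^ 2 := by linarith
    exact_mod_cast this

/-- twice the number of the cells -/
theorem two_card (hF : GoalF1Z) (d h : ℕ) (h1 : 1 ≤ h) (h2 : h ≤ d + 1) :
    2 * ((triZ d h).card : ℤ) = ((d : ℤ) + 1) * (d + 2) - ((d : ℤ) + 1 - h) * (d + 2 - h) := by
  have h3 := (hF 1 d h le_rfl h1 h2).2.2.2.2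
  obtain ⟨u, hu⟩ : ∃ u, d + 1 = h + u := ⟨d + 1 - h, by omega⟩
  have e1 : d + 1 - h = u := by omega
  have e2 : d + 2 - h = u + 1 := by omega
  rw [e1, e2] at h3
  have e3 : (d : ℤ) = h + u - 1 := by
    have : (d : ℤ) + 1 = h + u := by exact_mod_cast hu
    linarith
  have h4 : 2 * ((triZ d h).card : ℤ) + u * (u + 1) = ((d : ℤ) + 1) * (d + 2) := by
    exact_mod_cast h3
  have e4 : (d : ℤ) + 1 - h = u := by rw [e3]; ring
  have e5 : (d : ℤ) + 2 - h = u + 1 := by rw [e3]; ring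
  rw [e4, e5]
  linarith

/-- EW-FinB: the main case of the full theorem -/
theorem goalFinB : GoalFinB := by
  intro hF hW hGL hGLd hRx hND n m d hm hn hnm hE
  obtain ⟨Lg, hLg⟩ : ∃ Lg, Lg = Nat.log 2 m + 10 := ⟨_, rfl⟩
  obtain ⟨j, hj⟩ : ∃ j, j = Nat.sqrt n / 1000 := ⟨_, rfl⟩
  obtain ⟨hj1, hn2, hm2, h85, h8j, hbig, h4s, h4j, hd⟩ :=
    hND n m Lg j hm hLg (by rw [hLg]; exact hn) hnm hj
  have hds := hd d hE
  obtain ⟨s, hs⟩ : ∃ s, s = j * (2 * m + 1) := ⟨_, rfl⟩
  rw [← hs] at hbig h4s hds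
  have hLg1 : 1 ≤ Lg := by omega
  have hs9 : 9 ≤ s := by rw [hs]; nlinarith
  have hjs : 8 * j ^ 2 ≤ s := by rw [hs]; nlinarith
  -- numbers over ℤ
  obtain ⟨C, hC⟩ : ∃ C, C = (m + 1).choose 2 := ⟨_, rfl⟩
  have hC2 : 2 * (C : ℤ) = m * (m + 1) := by
    have := two_ch m
    rw [← hC] at this
    exact_mod_cast this
  obtain ⟨X, hX⟩ : ∃ X : ℤ, X = 2 * (((d + 2).choose 2 : ℤ) - n * (m + 1).choose 2) := ⟨_, rfl⟩
  have hXd : X = ((d : ℤ) + 1) * (d + 2) - 2 * (n * C) := by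
    rw [hX, ← hC]
    have h1 := two_ch (d + 1)
    have h2 : 2 * ((d + 2).choose 2 : ℤ) = ((d : ℤ) + 1) * (d + 2) := by
      have h3 : 2 * (d + 1 + 1).choose 2 = (d + 1) * (d + 1 + 1) := h1
      have h4 : 2 * ((d + 1 + 1).choose 2 : ℤ) = ((d : ℤ) + 1) * (d + 1 + 1) := by
        exact_mod_cast h3
      rw [show d + 2 = d + 1 + 1 from rfl, h4]
      ring
    linarith
  have hsz : (s : ℤ) = j * (2 * m + 1) := by rw [hs]; push_cast; ring
  have hjsz : 8 * (j : ℤ) ^ 2 ≤ s := by exact_mod_cast hjs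
  have h4sz : 4 * (s : ℤ) ≤ (m : ℤ) ^ 2 := by exact_mod_cast h4s
  have hj0 : (0 : ℤ) ≤ (j : ℤ) ^ 2 := by positivity
  have hs9z : (9 : ℤ) ≤ s := by exact_mod_cast hs9
  have h2aC : 2 * (((4 * j ^ 2 : ℕ) : ℤ) * C) = (s : ℤ) ^ 2 - (j : ℤ) ^ 2 := by
    rw [hsz]; push_cast
    linear_combination (4 * (j : ℤ) ^ 2) * hC2
  -- the absolute value
  have hXabs : |X| < 6 * (m : ℤ) ^ 2 := by
    rw [hX, abs_mul]
    have : |(2 : ℤ)| = 2 := by norm_num
    rw [this]
    linarith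
  by_cases hcase : (s : ℤ) ≤ 4 * |X|
  · -- the window theorem
    have hok := useWZ hW n m d (d + 1) Lg s X hLg1 (by omega) hn2 hm2 hnm (by omega) le_rfl
      (by omega) (by
        have := two_card hF d (d + 1) (by omega) le_rfl
        rw [mul_sub, this, hXd, ← hC]
        push_cast
        ring) hcase hXabs.le hbig
    rwa [triZ_full rfl] at hok
  · push Not at hcase
    obtain ⟨hx1, hx2⟩ := abs_lt.1 (show |4 * X| < s by
      rw [abs_mul]; have : |(4 : ℤ)| = 4 := by norm_num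
      rw [this]; exact hcase)
    have hsqa : Nat.sqrt (4 * j ^ 2) ≤ Nat.sqrt n := Nat.sqrt_le_sqrt (by omega)
    have hsqb : Nat.sqrt (n - 4 * j ^ 2) ≤ Nat.sqrt n := Nat.sqrt_le_sqrt (by omega)
    have hbiga : 8 * (2 ^ 65 * Lg ^ 2 * (2 ^ 75 * Lg ^ 3 + 2 * Nat.sqrt (4 * j ^ 2))) ≤ s := by
      refine le_trans ?_ hbig
      gcongr
    have hbigb : 8 * (2 ^ 65 * Lg ^ 2 * (2 ^ 75 * Lg ^ 3 + 2 * Nat.sqrt (n - 4 * j ^ 2))) ≤ s := by
      refine le_trans ?_ hbig
      gcongr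
    have hnb : ((n - 4 * j ^ 2 : ℕ) : ℤ) = n - 4 * (j : ℤ) ^ 2 := by
      rw [Nat.cast_sub (by omega)]; push_cast; ring
    -- first
    have hX1 : 2 * (((triZ (s - 1) s).card : ℤ) - ((4 * j ^ 2 : ℕ) : ℤ) * (m + 1).choose 2) =
        s + (j : ℤ) ^ 2 := by
      have h1 := two_card hF (s - 1) s (by omega) (by omega)
      have h2 : ((s - 1 : ℕ) : ℤ) = s - 1 := by rw [Nat.cast_sub (by omega)]; simp
      rw [h2] at h1
      rw [← hC]
      linear_combination h1 - h2aC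
    have hX2 : 2 * (((triZ (s - 2) (s - 1)).card : ℤ) -
        ((4 * j ^ 2 : ℕ) : ℤ) * (m + 1).choose 2) = (j : ℤ) ^ 2 - s := by
      have h1 := two_card hF (s - 2) (s - 1) (by omega) (by omega)
      have h2 : ((s - 1 : ℕ) : ℤ) = s - 1 := by rw [Nat.cast_sub (by omega)]; simp
      have h3 : ((s - 2 : ℕ) : ℤ) = s - 2 := by rw [Nat.cast_sub (by omega)]; simp
      rw [h2, h3] at h1
      rw [← hC]
      linear_combination h1 - h2aC
    have hX3 : 2 * (((triZ d (d - (s - 1) + 1)).card : ℤ) -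
        ((n - 4 * j ^ 2 : ℕ) : ℤ) * (m + 1).choose 2) = X + s - (j : ℤ) ^ 2 := by
      have h1 := two_card hF d (d - (s - 1) + 1) (by omega) (by omega)
      have h2 : ((d - (s - 1) + 1 : ℕ) : ℤ) = d - s + 2 := by
        rw [show d - (s - 1) + 1 = d + 2 - s by omega, Nat.cast_sub (by omega)]
        push_cast; ring
      rw [h2] at h1
      rw [← hC, hnb, hXd]
      have h4 := h2aC
      push_cast at h4
      linear_combination h1 + h4
    have hX4 : 2 * (((triZ d (d - (s - 1))).card : ℤ) -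
        ((n - 4 * j ^ 2 : ℕ) : ℤ) * (m + 1).choose 2) = X - s - (j : ℤ) ^ 2 := by
      have h1 := two_card hF d (d - (s - 1)) (by omega) (by omega)
      have h2 : ((d - (s - 1) : ℕ) : ℤ) = d - s + 1 := by
        rw [show d - (s - 1) = d + 1 - s by omega, Nat.cast_sub (by omega)]
        push_cast; ring
      rw [h2] at h1
      rw [← hC, hnb, hXd]
      have h4 := h2aC
      push_cast at h4
      linear_combination h1 + h4
    have ha1 : |(s : ℤ) + (j : ℤ) ^ 2| = (s : ℤ) + (j : ℤ) ^ 2 := abs_of_pos (by linarith)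
    have ha2 : |(j : ℤ) ^ 2 - s| = s - (j : ℤ) ^ 2 := by
      rw [abs_of_neg (by linarith)]; ring
    have ha3 : |X + s - (j : ℤ) ^ 2| = X + s - (j : ℤ) ^ 2 := abs_of_pos (by linarith)
    have ha4 : |X - s - (j : ℤ) ^ 2| = s + (j : ℤ) ^ 2 - X := by
      rw [abs_of_neg (by linarith)]; ring
    have o1 := useWZ hW (4 * j ^ 2) m (s - 1) s Lg s _ hLg1 h85 (by omega) hm2 (by omega)
      (by omega) (by omega) (by omega) hX1 (by rw [ha1]; linarith) (by rw [ha1]; linarith) hbiga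
    have o2 := useWZ hW (4 * j ^ 2) m (s - 2) (s - 1) Lg s _ hLg1 h85 (by omega) hm2 (by omega)
      (by omega) (by omega) (by omega) hX2 (by rw [ha2]; linarith) (by rw [ha2]; linarith) hbiga
    have o3 := useWZ hW (n - 4 * j ^ 2) m d (d - (s - 1) + 1) Lg s _ hLg1 (by omega) (by omega)
      hm2 (by omega) (by omega) (by omega) (by omega) hX3 (by rw [ha3]; linarith)
      (by rw [ha3]; linarith) hbigb
    have o4 := useWZ hW (n - 4 * j ^ 2) m d (d - (s - 1)) Lg s _ hLg1 (by omega) (by omega)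
      hm2 (by omega) (by omega) (by omega) (by omega) hX4 (by rw [ha4]; linarith)
      (by rw [ha4]; linarith) hbigb
    have i1 := Ok_ind o1 (by
      have : (((4 * j ^ 2 : ℕ) : ℤ) * (m + 1).choose 2) < (triZ (s - 1) s).card := by linarith
      exact_mod_cast this)
    have i2 := Ok_inj o2 (by
      have : ((triZ (s - 2) (s - 1)).card : ℤ) < (((4 * j ^ 2 : ℕ) : ℤ) * (m + 1).choose 2) := by
        linarith
      exact_mod_cast this)
    have i3 := Ok_ind o3 (by
      have : (((n - 4 * j ^ 2 : ℕ) : ℤ) * (m + 1).choose 2) <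
        (triZ d (d - (s - 1) + 1)).card := by linarith
      exact_mod_cast this)
    have i4 := Ok_inj o4 (by
      have : ((triZ d (d - (s - 1))).card : ℤ) <
        (((n - 4 * j ^ 2 : ℕ) : ℤ) * (m + 1).choose 2) := by linarith
      exact_mod_cast this)
    have hcard : (range (n - 4 * j ^ 2)).card = (Ico (4 * j ^ 2) n).card := by simp
    have k3 := (hRx (triZ d (d - (s - 1) + 1)) m _ _ hcard).1 i3
    have k4 := (hRx (triZ d (d - (s - 1))) m _ _ hcard).2 i4
    rw [triZ_full (show s = s - 1 + 1 by omega)] at i1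
    rw [triZ_full (show s - 1 = s - 2 + 1 by omega), show s - 2 = s - 1 - 1 by omega] at i2
    have hdisj : Disjoint (range (4 * j ^ 2)) (Ico (4 * j ^ 2) n) := by
      rw [range_eq_Ico]
      exact Ico_disjoint_Ico_consecutive 0 (4 * j ^ 2) n
    have hun : range (4 * j ^ 2) ∪ Ico (4 * j ^ 2) n = range n := by
      rw [range_eq_Ico, range_eq_Ico]
      exact Ico_union_Ico_eq_Ico (by omega) (by omega)
    rcases le_total (triD 0 d).card (n * (m + 1).choose 2) with hle | hle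
    · right
      refine ⟨hle, ?_⟩
      have := hGL (fun _ => m) d (s - 1) _ _ (by omega) (by omega) hdisj i1 i2 k3 k4
        (by rw [hun, card_rows_range]; exact hle)
      rwa [hun] at this
    · left
      refine ⟨hle, ?_⟩
      have := hGLd hGL (fun _ => m) d (s - 1) _ _ (by omega) (by omega) hdisj i1 i2 k3 k4
        (by rw [hun, card_rows_range]; exact hle)
      rwa [hun] at this

end Pool.Agent.Helper35.EW
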