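import Pool.Agent.Helper18.EW.Goals4

/-!
# EW-Rx: renumbering of the points
-/

set_option autoImplicit false

namespace Pool.Agent.Helper35.EW

open Finset
open Pool.Agent.Lead.Sh
open Pool.Agent.Helper18.EW

theorem rx_maps {s t : Finset ℕ} (h : s.card = t.card) :
    ∃ f g : ℕ → ℕ, (∀ k ∈ s, f k ∈ t ∧ g (f k) = k) ∧ (∀ k ∈ t, g k ∈ s ∧ f (g k) = k) := by
  classical
  set e : s ≃ t := Finset.equivOfCardEq h with he
  refine ⟨fun k => if hk : k ∈ s then (e ⟨k, hk⟩ : ℕ) else 0,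
    fun k => if hk : k ∈ t then (e.symm ⟨k, hk⟩ : ℕ) else 0, ?_, ?_⟩
  · intro k hk
    have h1 : ((e ⟨k, hk⟩ : t) : ℕ) ∈ t := (e ⟨k, hk⟩).2
    simp only [hk, dif_pos]
    refine ⟨h1, ?_⟩
    rw [dif_pos h1]
    simp
  · intro k hk
    have h1 : ((e.symm ⟨k, hk⟩ : s) : ℕ) ∈ s := (e.symm ⟨k, hk⟩).2
    simp only [hk, dif_pos]
    refine ⟨h1, ?_⟩
    rw [dif_pos h1]
    simp

/-- EW-Rx: renumbering of the points -/
theorem goalRx : GoalRx := by
  intro D m s t hst
  obtain ⟨f, g, hf, hg⟩ := rx_maps hst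
  constructor
  · rintro ⟨P, hP⟩
    refine ⟨fun k => P (g k), ?_⟩
    intro l hl r hr
    rw [mem_rows] at hr
    have key := hP (fun r => l (f r.1, r.2)) ?_ (g r.1, r.2) ?_
    · simp only at key
      rw [(hg r.1 hr.1).2] at key
      exact key
    · intro d hd
      refine Eq.trans ?_ (hl d hd)
      refine sum_nbij' (fun r => (f r.1, r.2)) (fun r => (g r.1, r.2)) ?_ ?_ ?_ ?_ ?_
      · intro r hr
        rw [mem_rows] at hr ⊢
        exact ⟨(hf r.1 hr.1).1, hr.2⟩
      · intro r hr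
        rw [mem_rows] at hr ⊢
        exact ⟨(hg r.1 hr.1).1, hr.2⟩
      · intro r hr
        rw [mem_rows] at hr
        simp only [(hf r.1 hr.1).2]
      · intro r hr
        rw [mem_rows] at hr
        simp only [(hg r.1 hr.1).2]
      · intro r hr
        rw [mem_rows] at hr
        simp only [(hf r.1 hr.1).2]
    · rw [mem_rows]
      exact ⟨(hg r.1 hr.1).1, hr.2⟩
  · rintro ⟨P, hP⟩
    refine ⟨fun k => P (g k), ?_⟩
    intro c hc d hd
    apply hP c _ d hd
    intro r hr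
    rw [mem_rows] at hr
    have key := hc (f r.1, r.2) (by rw [mem_rows]; exact ⟨(hf r.1 hr.1).1, hr.2⟩)
    simp only [(hf r.1 hr.1).2] at key
    exact key

end Pool.Agent.Helper35.EW
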